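import Pool.Agent.K1H88.DF.Stm
import Pool.Agent.K1H99.DP.Min
import Pool.Agent.K1H10.DP.FinTrans

set_option autoImplicit false
set_option linter.unusedSectionVars false

/-! `S_MIN` over number fields: minimisation of the product of the chordal distances. -/

namespace Pool.Agent.K1H30.DF

open Pool.Agent.K1H88.DF
open Pool.Agent.K1H88.DP (Kp pl vn cont Emb S_FIN S_HALL S_UNR)
open Pool.Agent.K1H99.DP (W W_mul W_const W_le W_one W_pair vn_nonneg pl_self norm_pl_le rel_equiv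
  norm_nat_le norm_nat_eq norm_sub_le norm_add_le)
open scoped Classical

section gen

variable {F : Type} [Field F] [NumberField F] {ι : Type} {E : ι → Type}
  [∀ k, Field (E k)] [∀ k, NumberField (E k)] [∀ k, Algebra F (E k)]
variable {K : Type} [NormedField K]

theorem ev_lin {u : F →+* K} (x y : ∀ k, E k) (a b : F) (i : EmbU F E u) :
    i.1.2 ((a • x + b • y) i.1.1) = u a * i.1.2 (x i.1.1) + u b * i.1.2 (y i.1.1) := by
  have h : ∀ z : F, i.1.2 (algebraMap F (E i.1.1) z) = u z := fun z => RingHom.congr_fun i.2 z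
  rw [Pi.add_apply, Pi.smul_apply, Pi.smul_apply, Algebra.smul_def, Algebra.smul_def, map_add,
    map_mul, map_mul, h, h]

theorem pl_lin {u : F →+* K} (x y : ∀ k, E k) (a b c d : F) (i j : EmbU F E u) :
    pl E (a • x + b • y) (c • x + d • y) i.1 j.1 = u (a * d - b * c) * pl E x y i.1 j.1 := by
  unfold pl
  rw [ev_lin, ev_lin, ev_lin, ev_lin]
  simp only [map_sub, map_mul]
  ring

end gen

section main

variable (F : Type) [Field F] [NumberField F] {ι : Type} [Fintype ι] (E : ι → Type)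
  [∀ k, Field (E k)] [∀ k, NumberField (E k)] [∀ k, Algebra F (E k)]

/-- good primes -/
def Good (x y : ∀ k, E k) (q : Nat.Primes) : Prop :=
  (∀ (u : F →+* Kp q) (i j : EmbU F E u), i ≠ j → ‖pl E x y i.1 j.1‖ = 1) ∧
    ∀ i : Emb E (Kp q), vn E x y i = 1

theorem exists_ne' (hC : S_CARD) {q : Nat.Primes} (hn : 3 ≤ deg F E) {u : F →+* Kp q}
    (i : EmbU F E u) : ∃ j, j ≠ i := by
  have : 1 < Fintype.card (EmbU F E u) := by rw [hC F ι E (Kp q) u]; omega
  exact Fintype.exists_ne_of_one_lt_card this i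

theorem good_finite (hC : S_CARD) (hF : S_FIN) (hT : S_TRANS) (x y : ∀ k, E k)
    (hD : Distinct F E x y) (hn : 3 ≤ deg F E) : {q | ¬ Good F E x y q}.Finite := by
  obtain ⟨-, hfin⟩ := hT F ι E x y hD
  have hx : (⋃ k, {p : Nat.Primes | x k ≠ 0 ∧ ∃ σ : E k →+* Kp p, ‖σ (x k)‖ ≠ 1}).Finite := by
    refine Set.finite_iUnion fun k => ?_
    by_cases h : x k = 0
    · simp [h]
    · simpa [h] using hF (E k) (x k) h
  have hy : (⋃ k, {p : Nat.Primes | y k ≠ 0 ∧ ∃ σ : E k →+* Kp p, ‖σ (y k)‖ ≠ 1}).Finite := by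
    refine Set.finite_iUnion fun k => ?_
    by_cases h : y k = 0
    · simp [h]
    · simpa [h] using hF (E k) (y k) h
  refine ((hfin.union hx).union hy).subset fun q hq => ?_
  by_contra hcon
  simp only [Set.mem_union, Set.mem_iUnion, Set.mem_ofPred_eq, not_or, not_exists, not_and,
    not_not] at hcon
  obtain ⟨⟨h1, h2⟩, h3⟩ := hcon
  apply hq
  have hle : ∀ i : Emb E (Kp q), vn E x y i ≤ 1 := by
    intro i
    refine max_le ?_ ?_
    · by_cases h : x i.1 = 0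
      · rw [h, map_zero, norm_zero]; exact zero_le_one
      · exact (h2 i.1 h i.2).le
    · by_cases h : y i.1 = 0
      · rw [h, map_zero, norm_zero]; exact zero_le_one
      · exact (h3 i.1 h i.2).le
  have hpl : ∀ (u : F →+* Kp q) (i j : EmbU F E u), i ≠ j → ‖pl E x y i.1 j.1‖ = 1 :=
    fun u i j => h1 u i j
  refine ⟨hpl, fun i => le_antisymm (hle i) ?_⟩
  obtain ⟨j, hj⟩ := exists_ne' F E hC hn
    (⟨i, rfl⟩ : EmbU F E (i.2.comp (algebraMap F (E i.1))))
  have h4 := norm_pl_le x y i j.1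
  rw [hpl _ ⟨i, rfl⟩ j hj.symm] at h4
  have h5 := hle j.1
  have h6 := vn_nonneg x y i
  nlinarith

theorem vn_pos (hC : S_CARD) (hT : S_TRANS) (x y : ∀ k, E k) (hD : Distinct F E x y)
    (hn : 3 ≤ deg F E) (q : Nat.Primes) (i : Emb E (Kp q)) : 0 < vn E x y i := by
  obtain ⟨j, hj⟩ := exists_ne' F E hC hn
    (⟨i, rfl⟩ : EmbU F E (i.2.comp (algebraMap F (E i.1))))
  have h1 := (hT F ι E x y hD).1 q _ ⟨i, rfl⟩ j hj.symm
  rcases (vn_nonneg x y i).lt_or_eq with h | h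
  · exact h
  · exfalso
    have h2 := norm_pl_le x y i j.1
    rw [← h, zero_mul] at h2
    exact h1 (norm_le_zero_iff.mp h2)

/-- the part of the product of the inverse distances at `u` -/
noncomputable def Du {q : Nat.Primes} (u : F →+* Kp q) (x y : ∀ k, E k) : ℝ :=
  W fun i j : EmbU F E u => vn E x y i.1 * vn E x y j.1 / ‖pl E x y i.1 j.1‖

/-- the local part of the product of the inverse distances -/
noncomputable def Dp (x y : ∀ k, E k) (q : Nat.Primes) : ℝ := ∏ u : F →+* Kp q, Du F E u x y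

theorem one_le_Du (hT : S_TRANS) (x y : ∀ k, E k) (hD : Distinct F E x y) {q : Nat.Primes}
    (u : F →+* Kp q) : 1 ≤ Du F E u x y := by
  have h := W_le (I := EmbU F E u) (fun _ _ => (1 : ℝ))
    (fun i j => vn E x y i.1 * vn E x y j.1 / ‖pl E x y i.1 j.1‖) (fun _ _ _ => zero_le_one)
    (fun i j hij => by
      rw [one_le_div (norm_pos_iff.mpr ((hT F ι E x y hD).1 q u i j hij))]
      exact norm_pl_le x y i.1 j.1)
  rw [W_const, one_pow] at h
  exact h

theorem one_le_Dp (hT : S_TRANS) (x y : ∀ k, E k) (hD : Distinct F E x y) (q : Nat.Primes) :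
    1 ≤ Dp F E x y q :=
  Finset.one_le_prod fun u _ => one_le_Du F E hT x y hD u

theorem Dp_good (x y : ∀ k, E k) (q : Nat.Primes) (h : Good F E x y q) : Dp F E x y q = 1 := by
  refine Finset.prod_eq_one fun u _ => W_one _ fun i j hij => ?_
  rw [h.1 u i j hij, h.2, h.2]
  norm_num

/-- the product of the inverse distances -/
noncomputable def DD (x y : ∀ k, E k) : ℝ := ∏ᶠ q : Nat.Primes, Dp F E x y q

theorem DD_eq (x y : ∀ k, E k) (T : Finset Nat.Primes) (h : ∀ q, ¬ Good F E x y q → q ∈ T) :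
    DD F E x y = ∏ q ∈ T, Dp F E x y q := by
  refine finprod_eq_prod_of_mulSupport_subset _ fun q hq => ?_
  by_contra hcon
  exact hq (Dp_good F E x y q (by_contra fun hg => hcon (h q hg)))

theorem one_le_DD (hC : S_CARD) (hF : S_FIN) (hT : S_TRANS) (x y : ∀ k, E k)
    (hD : Distinct F E x y) (hn : 3 ≤ deg F E) : 1 ≤ DD F E x y := by
  rw [DD_eq F E x y (good_finite F E hC hF hT x y hD hn).toFinset fun q hq => by simpa using hq]
  exact Finset.one_le_prod fun q _ => one_le_Dp F E hT x y hD q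

/-- Change of the part at `u`. -/
theorem Du_step (hC : S_CARD) (hT : S_TRANS) (x y : ∀ k, E k) (hD : Distinct F E x y)
    (hn : 3 ≤ deg F E) {q : Nat.Primes} (u : F →+* Kp q) (A : ℝ) (hA : 0 < A)
    (S : Finset (EmbU F E u)) (α β γ δ : F) (hdet : ‖u (α * δ - β * γ)‖ = A⁻¹)
    (h1 : ∀ i ∈ S, vn E (α • x + β • y) (γ • x + δ • y) i.1 ≤ vn E x y i.1)
    (h2 : ∀ i : EmbU F E u, vn E (α • x + β • y) (γ • x + δ • y) i.1 ≤ A⁻¹ * vn E x y i.1) :
    Du F E u (α • x + β • y) (γ • x + δ • y) ≤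
      (A⁻¹) ^ ((deg F E - S.card) * (2 * (deg F E - 1))) * A ^ (deg F E * (deg F E - 1)) *
        Du F E u x y := by
  have hcard : Fintype.card (EmbU F E u) = deg F E := hC F ι E (Kp q) u
  set t : EmbU F E u → ℝ := fun i => if i ∈ S then 1 else A⁻¹ with ht
  have htpos : ∀ i, 0 < t i := by
    intro i
    simp only [ht]
    split_ifs
    · exact one_pos
    · exact inv_pos.mpr hA
  have hvt : ∀ i : EmbU F E u, vn E (α • x + β • y) (γ • x + δ • y) i.1 ≤ t i * vn E x y i.1 := by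
    intro i
    simp only [ht]
    split_ifs with h
    · rw [one_mul]; exact h1 i h
    · exact h2 i
  have hW := W_le (I := EmbU F E u)
    (fun i j => vn E (α • x + β • y) (γ • x + δ • y) i.1 *
      vn E (α • x + β • y) (γ • x + δ • y) j.1 / ‖pl E (α • x + β • y) (γ • x + δ • y) i.1 j.1‖)
    (fun i j => (t i * t j) * (A * (vn E x y i.1 * vn E x y j.1 / ‖pl E x y i.1 j.1‖)))
    (fun i j _ => div_nonneg (mul_nonneg (vn_nonneg _ _ _) (vn_nonneg _ _ _)) (norm_nonneg _))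
    (fun i j hij => by
      have hpl : 0 < ‖pl E x y i.1 j.1‖ := norm_pos_iff.mpr ((hT F ι E x y hD).1 q u i j hij)
      rw [pl_lin, norm_mul, hdet]
      have e : (t i * t j) * (A * (vn E x y i.1 * vn E x y j.1 / ‖pl E x y i.1 j.1‖)) =
          (t i * vn E x y i.1) * (t j * vn E x y j.1) / (A⁻¹ * ‖pl E x y i.1 j.1‖) := by
        field_simp
      rw [e]
      refine div_le_div_of_nonneg_right ?_ (by positivity)
      exact mul_le_mul (hvt i) (hvt j) (vn_nonneg _ _ _)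
        (mul_nonneg (htpos i).le (vn_nonneg _ _ _)))
  have eW1 := W_mul (I := EmbU F E u) (fun i j => t i * t j)
    (fun i j => A * (vn E x y i.1 * vn E x y j.1 / ‖pl E x y i.1 j.1‖))
  have eW2 := W_mul (I := EmbU F E u) (fun _ _ => A)
    (fun i j => vn E x y i.1 * vn E x y j.1 / ‖pl E x y i.1 j.1‖)
  rw [eW1, eW2, W_pair t htpos (by omega), W_const, hcard] at hW
  have hprod : ∏ i, t i = (A⁻¹) ^ (deg F E - S.card) := by
    simp only [ht]
    rw [Finset.prod_ite, Finset.prod_const_one, one_mul, Finset.prod_const]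
    congr 1
    rw [Finset.filter_not, Finset.card_sdiff_of_subset (Finset.filter_subset _ _), Finset.card_univ,
      hcard, Finset.filter_mem_eq_inter, Finset.univ_inter]
  rw [hprod, ← pow_mul] at hW
  unfold Du
  refine hW.trans (le_of_eq ?_)
  ring

theorem Du_all (hC : S_CARD) (hT : S_TRANS) (x y : ∀ k, E k) (hD : Distinct F E x y)
    (hn : 3 ≤ deg F E) {q : Nat.Primes} (u : F →+* Kp q) (A : ℝ) (hA : 0 < A)
    (α β γ δ : F) (hdet : ‖u (α * δ - β * γ)‖ = A⁻¹)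
    (h2 : ∀ i : EmbU F E u, vn E (α • x + β • y) (γ • x + δ • y) i.1 ≤ A⁻¹ * vn E x y i.1) :
    Du F E u (α • x + β • y) (γ • x + δ • y) ≤
      (A ^ (deg F E * (deg F E - 1)))⁻¹ * Du F E u x y := by
  have h := Du_step F E hC hT x y hD hn u A hA ∅ α β γ δ hdet (by simp) h2
  refine h.trans (le_of_eq ?_)
  congr 1
  rw [Finset.card_empty, Nat.sub_zero, show deg F E * (2 * (deg F E - 1)) =
    deg F E * (deg F E - 1) + deg F E * (deg F E - 1) by ring, inv_pow, pow_add]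
  have : A ^ (deg F E * (deg F E - 1)) ≠ 0 := by positivity
  field_simp

theorem Du_cluster (hC : S_CARD) (hT : S_TRANS) (x y : ∀ k, E k) (hD : Distinct F E x y)
    (hn : 3 ≤ deg F E) {q : Nat.Primes} (u : F →+* Kp q) (A : ℝ) (hA : 0 < A) (hA1 : A ≤ 1)
    (S : Finset (EmbU F E u)) (hS : deg F E < 2 * S.card)
    (α β γ δ : F) (hdet : ‖u (α * δ - β * γ)‖ = A⁻¹)
    (h1 : ∀ i ∈ S, vn E (α • x + β • y) (γ • x + δ • y) i.1 ≤ vn E x y i.1)
    (h2 : ∀ i : EmbU F E u, vn E (α • x + β • y) (γ • x + δ • y) i.1 ≤ A⁻¹ * vn E x y i.1) :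
    Du F E u (α • x + β • y) (γ • x + δ • y) ≤
      (A ^ (deg F E * (deg F E - 1)))⁻¹ * A ^ ((deg F E - 1) * (deg F E + 1)) * Du F E u x y := by
  have h := Du_step F E hC hT x y hD hn u A hA S α β γ δ hdet h1 h2
  refine h.trans (mul_le_mul_of_nonneg_right ?_
    (zero_le_one.trans (one_le_Du F E hT x y hD u)))
  have hcard : Fintype.card (EmbU F E u) = deg F E := hC F ι E (Kp q) u
  have hSn : S.card ≤ deg F E := by rw [← hcard]; exact Finset.card_le_univ S
  set n := deg F E with hnd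
  set s := S.card with hs
  have e1 : n * (n - 1) + n * (n - 1) =
      ((n - 1) * (n + 1) + (n - s) * (2 * (n - 1))) + (n - 1) * (2 * s - n - 1) := by
    obtain ⟨k, hk⟩ := Nat.exists_eq_add_of_le hSn
    have hks : k + 1 ≤ s := by omega
    obtain ⟨l, hl⟩ := Nat.exists_eq_add_of_le hks
    have a1 : n - s = k := by omega
    have a2 : 2 * s - n - 1 = l := by omega
    have a3 : n - 1 = 2 * k + l := by omega
    have a4 : n = 2 * k + l + 1 := by omega
    rw [a1, a2, a3, a4]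
    ring
  rw [inv_pow, inv_mul_eq_div, inv_mul_eq_div, div_le_div_iff₀ (by positivity) (by positivity),
    ← pow_add, ← pow_add, e1, pow_add _ ((n - 1) * (n + 1) + (n - s) * (2 * (n - 1)))]
  have h3 : A ^ ((n - 1) * (2 * s - n - 1)) ≤ 1 := pow_le_one₀ hA.le hA1
  have h4 : 0 < A ^ ((n - 1) * (n + 1) + (n - s) * (2 * (n - 1))) := by positivity
  nlinarith

theorem norm_tau {p : Nat.Primes} (τ : Kp p ≃ₐ[ℚ_[(p : ℕ)]] Kp p) (z : Kp p) : ‖τ z‖ = ‖z‖ := by
  rw [← PadicAlgCl.spectralNorm_eq, ← PadicAlgCl.spectralNorm_eq]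
  exact (spectralNorm_eq_of_equiv τ z).symm

/-- transport of a cluster -/
theorem transport {p : Nat.Primes} (u₀ u : F →+* Kp p)
    (τ : Kp p ≃ₐ[ℚ_[(p : ℕ)]] Kp p) (hτ : ∀ z, τ (u₀ z) = u z) (S : Finset (EmbU F E u₀)) :
    ∃ S' : Finset (EmbU F E u), S'.card = S.card ∧ ∀ j ∈ S', ∃ i ∈ S, ∀ w : ∀ k, E k,
      j.1.2 (w j.1.1) = τ (i.1.2 (w i.1.1)) := by
  set g : EmbU F E u₀ → EmbU F E u := fun i =>
    ⟨⟨i.1.1, (τ : Kp p →+* Kp p).comp i.1.2⟩, by
      ext z
      have h := RingHom.congr_fun i.2 z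
      rw [RingHom.comp_apply] at h
      show τ (i.1.2 (algebraMap F (E i.1.1) z)) = u z
      rw [h, hτ]⟩ with hg
  have hinj : Function.Injective g := by
    rintro ⟨⟨k, σ⟩, h⟩ ⟨⟨k', σ'⟩, h'⟩ hgg
    have h1 := Subtype.mk.inj hgg
    obtain ⟨h2, h3⟩ := Sigma.mk.inj_iff.mp h1
    obtain rfl : k = k' := h2
    have h4 := eq_of_heq h3
    have h5 : σ = σ' := by
      ext z
      have h6 := RingHom.congr_fun h4 z
      exact τ.injective h6
    subst h5
    rfl
  refine ⟨S.map ⟨g, hinj⟩, Finset.card_map _, ?_⟩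
  intro j hj
  obtain ⟨i, hi, rfl⟩ := Finset.mem_map.mp hj
  exact ⟨i, hi, fun w => rfl⟩

theorem cont_eq (a : F) (T : Finset Nat.Primes)
    (h : ∀ q : Nat.Primes, (∃ σ : F →+* Kp q, ‖σ a‖ ≠ 1) → q ∈ T) :
    cont F a 0 = ∏ q ∈ T, ∏ σ : F →+* Kp q, ‖σ a‖ := by
  have h0 : ∀ q : Nat.Primes, ∏ σ : F →+* Kp q, max ‖σ a‖ ‖σ 0‖ = ∏ σ : F →+* Kp q, ‖σ a‖ := by
    intro q
    refine Finset.prod_congr rfl fun σ _ => ?_
    rw [map_zero, norm_zero]
    exact max_eq_left (norm_nonneg _)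
  unfold cont
  rw [finprod_congr h0]
  refine finprod_eq_prod_of_mulSupport_subset _ fun q hq => ?_
  by_contra hcon
  refine hq (Finset.prod_eq_one fun σ _ => ?_)
  by_contra h1
  exact hcon (h q ⟨σ, h1⟩)

theorem distinct_lin (x y : ∀ k, E k) (hD : Distinct F E x y) (α β γ δ : F)
    (hdet : α * δ - β * γ ≠ 0) : Distinct F E (α • x + β • y) (γ • x + δ • y) := by
  intro u i j hij
  rw [pl_lin]
  exact mul_ne_zero (by rwa [map_ne_zero]) (hD u i j hij)

theorem global_step (hC : S_CARD) (hF : S_FIN) (hT : S_TRANS) (x y : ∀ k, E k)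
    (hD : Distinct F E x y) (hn : 3 ≤ deg F E) (a₀ : F) (ha0 : a₀ ≠ 0) (hai : IsIntegral ℤ a₀)
    (α β γ δ : F) (hdet : α * δ - β * γ = a₀⁻¹)
    (hall : ∀ (q : Nat.Primes) (u : F →+* Kp q) (i : EmbU F E u),
      vn E (α • x + β • y) (γ • x + δ • y) i.1 ≤ ‖u a₀‖⁻¹ * vn E x y i.1)
    (p : Nat.Primes) (U : Finset (F →+* Kp p))
    (hclu : ∀ u ∈ U, ∃ S : Finset (EmbU F E u), deg F E < 2 * S.card ∧
      ∀ i ∈ S, vn E (α • x + β • y) (γ • x + δ • y) i.1 ≤ vn E x y i.1)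
    (hcont : (∏ u ∈ U, ‖u a₀‖) ^ ((deg F E - 1) * (deg F E + 1)) ≤
      1 / 2 * cont F a₀ 0 ^ (deg F E * (deg F E - 1))) :
    DD F E (α • x + β • y) (γ • x + δ • y) ≤ DD F E x y / 2 := by
  have hdet0 : α * δ - β * γ ≠ 0 := by rw [hdet]; exact inv_ne_zero ha0
  have hD' := distinct_lin F E x y hD α β γ δ hdet0
  set n := deg F E with hnd
  set T : Finset Nat.Primes := insert p (((good_finite F E hC hF hT x y hD hn).toFinset ∪
    (good_finite F E hC hF hT _ _ hD' hn).toFinset) ∪ (hF F a₀ ha0).toFinset) with hTdef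
  have hT1 : ∀ q, ¬ Good F E x y q → q ∈ T := by
    intro q h
    simp only [hTdef, Finset.mem_insert, Finset.mem_union, Set.Finite.mem_toFinset]
    exact Or.inr (Or.inl (Or.inl h))
  have hT2 : ∀ q, ¬ Good F E (α • x + β • y) (γ • x + δ • y) q → q ∈ T := by
    intro q h
    simp only [hTdef, Finset.mem_insert, Finset.mem_union, Set.Finite.mem_toFinset]
    exact Or.inr (Or.inl (Or.inr h))
  have hT3 : ∀ q : Nat.Primes, (∃ σ : F →+* Kp q, ‖σ a₀‖ ≠ 1) → q ∈ T := by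
    intro q h
    simp only [hTdef, Finset.mem_insert, Finset.mem_union, Set.Finite.mem_toFinset]
    exact Or.inr (Or.inr h)
  have hpT : p ∈ T := Finset.mem_insert_self _ _
  have hA : ∀ (q : Nat.Primes) (u : F →+* Kp q), 0 < ‖u a₀‖ := fun q u =>
    norm_pos_iff.mpr ((map_ne_zero u).mpr ha0)
  have hA1 : ∀ (q : Nat.Primes) (u : F →+* Kp q), ‖u a₀‖ ≤ 1 := fun q u =>
    Pool.Agent.K1H10.DP.int_norm_le (hai.map u.toIntAlgHom)
  have hdetn : ∀ (q : Nat.Primes) (u : F →+* Kp q), ‖u (α * δ - β * γ)‖ = ‖u a₀‖⁻¹ := by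
    intro q u
    rw [hdet, map_inv₀, norm_inv]
  have hDu0 : ∀ (q : Nat.Primes) (u : F →+* Kp q), 0 ≤ Du F E u x y := fun q u =>
    zero_le_one.trans (one_le_Du F E hT x y hD u)
  have hDu0' : ∀ (q : Nat.Primes) (u : F →+* Kp q),
      0 ≤ Du F E u (α • x + β • y) (γ • x + δ • y) := fun q u =>
    zero_le_one.trans (one_le_Du F E hT _ _ hD' u)
  set P : ℝ := (∏ u ∈ U, ‖u a₀‖) ^ ((n - 1) * (n + 1)) with hP
  have hPpos : 0 < P := pow_pos (Finset.prod_pos fun u _ => hA p u) _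
  -- the local estimates
  have hloc : ∀ q, Dp F E (α • x + β • y) (γ • x + δ • y) q ≤
      ((∏ σ : F →+* Kp q, ‖σ a₀‖) ^ (n * (n - 1)))⁻¹ * (if q = p then P else 1) *
        Dp F E x y q := by
    intro q
    by_cases hq : q = p
    · subst hq
      rw [if_pos rfl]
      have h1 : Dp F E (α • x + β • y) (γ • x + δ • y) q ≤ ∏ u : F →+* Kp q,
          ((‖u a₀‖ ^ (n * (n - 1)))⁻¹ * (if u ∈ U then ‖u a₀‖ ^ ((n - 1) * (n + 1)) else 1) *
            Du F E u x y) := by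
        refine Finset.prod_le_prod (fun u _ => hDu0' q u) fun u _ => ?_
        split_ifs with hu
        · obtain ⟨S, hS, hS1⟩ := hclu u hu
          exact Du_cluster F E hC hT x y hD hn u ‖u a₀‖ (hA q u) (hA1 q u) S hS α β γ δ
            (hdetn q u) hS1 (hall q u)
        · rw [mul_one]
          exact Du_all F E hC hT x y hD hn u ‖u a₀‖ (hA q u) α β γ δ (hdetn q u) (hall q u)
      refine h1.trans (le_of_eq ?_)
      rw [Finset.prod_mul_distrib, Finset.prod_mul_distrib, Finset.prod_inv_distrib,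
        Finset.prod_pow, Finset.prod_ite_mem, Finset.univ_inter, Finset.prod_pow]
      rfl
    · rw [if_neg hq, mul_one]
      have h1 : Dp F E (α • x + β • y) (γ • x + δ • y) q ≤ ∏ u : F →+* Kp q,
          ((‖u a₀‖ ^ (n * (n - 1)))⁻¹ * Du F E u x y) := by
        refine Finset.prod_le_prod (fun u _ => hDu0' q u) fun u _ => ?_
        exact Du_all F E hC hT x y hD hn u ‖u a₀‖ (hA q u) α β γ δ (hdetn q u) (hall q u)
      refine h1.trans (le_of_eq ?_)
      rw [Finset.prod_mul_distrib, Finset.prod_inv_distrib, Finset.prod_pow]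
      rfl
  have hDp0 : ∀ q, 0 ≤ Dp F E x y q := fun q => zero_le_one.trans (one_le_Dp F E hT x y hD q)
  rw [DD_eq F E x y T hT1, DD_eq F E _ _ T hT2]
  have h2 : ∏ q ∈ T, Dp F E (α • x + β • y) (γ • x + δ • y) q ≤
      ∏ q ∈ T, (((∏ σ : F →+* Kp q, ‖σ a₀‖) ^ (n * (n - 1)))⁻¹ * (if q = p then P else 1) *
        Dp F E x y q) :=
    Finset.prod_le_prod (fun q _ => zero_le_one.trans (one_le_Dp F E hT _ _ hD' q))
      fun q _ => hloc q
  rw [Finset.prod_mul_distrib, Finset.prod_mul_distrib, Finset.prod_inv_distrib, Finset.prod_pow,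
    Finset.prod_ite_eq' T p (fun _ => P), if_pos hpT, ← cont_eq F a₀ T hT3] at h2
  refine h2.trans ?_
  have hc : 0 < cont F a₀ 0 := by
    rw [cont_eq F a₀ T hT3]
    exact Finset.prod_pos fun q _ => Finset.prod_pos fun u _ => hA q u
  have h3 : (cont F a₀ 0 ^ (n * (n - 1)))⁻¹ * P ≤ 1 / 2 := by
    rw [inv_mul_le_iff₀ (by positivity), mul_comm]
    exact hcont
  have h4 : 0 ≤ ∏ q ∈ T, Dp F E x y q := Finset.prod_nonneg fun q _ => hDp0 q
  calc _ ≤ 1 / 2 * ∏ q ∈ T, Dp F E x y q := mul_le_mul_of_nonneg_right h3 h4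
    _ = _ := by ring

/-- If a class is too large then the product of the inverse distances can be made smaller. -/
theorem improve (hC : S_CARD) (hF : S_FIN) (hT : S_TRANS) (hJ : S_CONJ) (hR : S_RAT)
    (x y : ∀ k, E k) (hD : Distinct F E x y) (hn : 3 ≤ deg F E) (p : Nat.Primes)
    (u₀ : F →+* Kp p) (a₀ : F) (hai : IsIntegral ℤ a₀) (ha0 : a₀ ≠ 0) (ha1 : ‖u₀ a₀‖ < 1)
    (hU : ∀ U : Finset (F →+* Kp p), (∀ u, u ∈ U ↔ ∀ z, ‖u z‖ = ‖u₀ z‖) →
        (∏ u ∈ U, ‖u a₀‖) ^ ((deg F E - 1) * (deg F E + 1)) ≤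
          1 / 2 * cont F a₀ 0 ^ (deg F E * (deg F E - 1)))
    (S : Finset (EmbU F E u₀)) (hS : deg F E < 2 * S.card)
    (hcl : ∀ i ∈ S, ∀ j, j ∈ S ↔ ‖pl E x y i.1 j.1‖ ≤
      (‖(((deg F E).factorial : ℕ) : Kp p)‖ * ‖u₀ a₀‖) * (vn E x y i.1 * vn E x y j.1)) :
    ∃ α β γ δ : F, α * δ - β * γ ≠ 0 ∧
      DD F E (α • x + β • y) (γ • x + δ • y) ≤ DD F E x y / 2 := by
  have hcard : Fintype.card (EmbU F E u₀) = deg F E := hC F ι E (Kp p) u₀
  have hScard : S.card ≤ deg F E := by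
    rw [← hcard]
    exact Finset.card_le_univ S
  have hA : ∀ (q : Nat.Primes) (u : F →+* Kp q), 0 < ‖u a₀‖ := fun q u =>
    norm_pos_iff.mpr ((map_ne_zero u).mpr ha0)
  have hA1 : ∀ (q : Nat.Primes) (u : F →+* Kp q), ‖u a₀‖ ≤ 1 := fun q u =>
    Pool.Agent.K1H10.DP.int_norm_le (hai.map u.toIntAlgHom)
  have hκ' : ‖(((deg F E).factorial : ℕ) : Kp p)‖ * ‖u₀ a₀‖ ≤
      ‖((S.card : ℕ) : Kp p)‖ * ‖u₀ a₀‖ := by
    refine mul_le_mul_of_nonneg_right ?_ (norm_nonneg _)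
    obtain ⟨l, hl⟩ : S.card ∣ (deg F E).factorial := Nat.dvd_factorial (by omega) hScard
    rw [hl, Nat.cast_mul, norm_mul]
    have := norm_nat_le p l
    nlinarith [norm_nonneg ((S.card : ℕ) : Kp p)]
  have hvpos := vn_pos F E hC hT x y hD hn p
  obtain ⟨m, hmi, hm⟩ := hR F ι E p u₀ x y _ ‖u₀ a₀‖ S (fun i => (hvpos i.1).ne')
    (by rw [hcard]; exact hS) hcl (hA p u₀) ha1 hκ'
  have hm1 : ∀ (q : Nat.Primes) (u : F →+* Kp q), ‖u m‖ ≤ 1 := fun q u =>
    Pool.Agent.K1H10.DP.int_norm_le (hmi.map u.toIntAlgHom)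
  -- the general estimates
  have g1 : ∀ (q : Nat.Primes) (u : F →+* Kp q) (z w : Kp q) (r : ℝ), ‖z - u m * w‖ ≤ r →
      ‖u a₀⁻¹ * z + u (-m * a₀⁻¹) * w‖ ≤ ‖u a₀‖⁻¹ * r := by
    intro q u z w r h
    have e : u a₀⁻¹ * z + u (-m * a₀⁻¹) * w = (u a₀)⁻¹ * (z - u m * w) := by
      rw [map_mul, map_neg, map_inv₀]
      ring
    rw [e, norm_mul, norm_inv]
    exact mul_le_mul_of_nonneg_left h (inv_nonneg.mpr (norm_nonneg _))
  have g2 : ∀ (q : Nat.Primes) (u : F →+* Kp q) (z w : Kp q) (r : ℝ), ‖z‖ ≤ r → ‖w‖ ≤ r →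
      ‖z - u m * w‖ ≤ r := by
    intro q u z w r hz hw
    refine norm_sub_le hz ?_
    rw [norm_mul]
    have := hm1 q u
    nlinarith [norm_nonneg (u m), norm_nonneg w]
  have g3 : ∀ (q : Nat.Primes) (u : F →+* Kp q) (r : ℝ), 0 ≤ r → r ≤ ‖u a₀‖⁻¹ * r := by
    intro q u r hr
    have h1 : 1 ≤ ‖u a₀‖⁻¹ := (one_le_inv₀ (hA q u)).mpr (hA1 q u)
    nlinarith
  set U : Finset (F →+* Kp p) := Finset.univ.filter fun u => ∀ z, ‖u z‖ = ‖u₀ z‖ with hUdef
  have hUm : ∀ u, u ∈ U ↔ ∀ z, ‖u z‖ = ‖u₀ z‖ := fun u => by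
    rw [hUdef, Finset.mem_filter]
    exact ⟨fun h => h.2, fun h => ⟨Finset.mem_univ _, h⟩⟩
  have hcont := hU U hUm
  -- transported clusters
  have htr : ∀ u ∈ U, ∃ S' : Finset (EmbU F E u), deg F E < 2 * S'.card ∧ ∀ j ∈ S',
      ∃ i ∈ S, (‖j.1.2 (x j.1.1) - u m * j.1.2 (y j.1.1)‖ =
          ‖i.1.2 (x i.1.1) - u₀ m * i.1.2 (y i.1.1)‖ ∧
        ‖j.1.2 (y j.1.1) - u m * j.1.2 (x j.1.1)‖ =
          ‖i.1.2 (y i.1.1) - u₀ m * i.1.2 (x i.1.1)‖) ∧ vn E x y j.1 = vn E x y i.1 := by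
    intro u hu
    obtain ⟨τ, hτ⟩ := hJ F p u₀ u (fun z => ((hUm u).mp hu z).symm)
    obtain ⟨S', hS', hS''⟩ := transport F E u₀ u τ hτ S
    refine ⟨S', by omega, fun j hj => ?_⟩
    obtain ⟨i, hi, hij⟩ := hS'' j hj
    refine ⟨i, hi, ⟨?_, ?_⟩, ?_⟩
    · rw [hij x, hij y, ← hτ m, ← map_mul, ← map_sub, norm_tau]
    · rw [hij x, hij y, ← hτ m, ← map_mul, ← map_sub, norm_tau]
    · unfold vn
      rw [hij x, hij y, norm_tau, norm_tau]
  have hAu : ∀ u ∈ U, ‖u a₀‖ = ‖u₀ a₀‖ := fun u hu => (hUm u).mp hu a₀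
  rcases hm with hm | hm
  · have hdet : a₀⁻¹ * 1 - (-m * a₀⁻¹) * 0 = a₀⁻¹ := by ring
    refine ⟨a₀⁻¹, -m * a₀⁻¹, 0, 1, by rw [hdet]; exact inv_ne_zero ha0, ?_⟩
    refine global_step F E hC hF hT x y hD hn a₀ ha0 hai _ _ _ _ hdet ?_ p U ?_ hcont
    · intro q u i
      have e : vn E (a₀⁻¹ • x + (-m * a₀⁻¹) • y) ((0 : F) • x + (1 : F) • y) i.1 =
          max ‖u a₀⁻¹ * i.1.2 (x i.1.1) + u (-m * a₀⁻¹) * i.1.2 (y i.1.1)‖
            ‖i.1.2 (y i.1.1)‖ := by
        unfold vn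
        rw [ev_lin, ev_lin, map_zero, map_one, zero_mul, one_mul, zero_add]
      rw [e]
      exact max_le (g1 q u _ _ _ (g2 q u _ _ _ (le_max_left _ _) (le_max_right _ _)))
        ((le_max_right _ _).trans (g3 q u _ (vn_nonneg _ _ _)))
    · intro u hu
      obtain ⟨S', hS', hS''⟩ := htr u hu
      refine ⟨S', hS', fun j hj => ?_⟩
      obtain ⟨i, hi, ⟨hij, -⟩, hv⟩ := hS'' j hj
      have e : vn E (a₀⁻¹ • x + (-m * a₀⁻¹) • y) ((0 : F) • x + (1 : F) • y) j.1 =
          max ‖u a₀⁻¹ * j.1.2 (x j.1.1) + u (-m * a₀⁻¹) * j.1.2 (y j.1.1)‖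
            ‖j.1.2 (y j.1.1)‖ := by
        unfold vn
        rw [ev_lin, ev_lin, map_zero, map_one, zero_mul, one_mul, zero_add]
      rw [e]
      refine max_le ?_ (le_max_right _ _)
      refine (g1 p u _ _ (‖u₀ a₀‖ * vn E x y i.1) (by rw [hij]; exact hm i hi)).trans
        (le_of_eq ?_)
      rw [hAu u hu, ← hv]
      have := (hA p u₀).ne'
      field_simp
  · have hdet : (1 : F) * a₀⁻¹ - 0 * (-m * a₀⁻¹) = a₀⁻¹ := by ring
    refine ⟨1, 0, -m * a₀⁻¹, a₀⁻¹, by rw [hdet]; exact inv_ne_zero ha0, ?_⟩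
    refine global_step F E hC hF hT x y hD hn a₀ ha0 hai _ _ _ _ hdet ?_ p U ?_ hcont
    · intro q u i
      have e : vn E ((1 : F) • x + (0 : F) • y) ((-m * a₀⁻¹) • x + a₀⁻¹ • y) i.1 =
          max ‖i.1.2 (x i.1.1)‖
            ‖u a₀⁻¹ * i.1.2 (y i.1.1) + u (-m * a₀⁻¹) * i.1.2 (x i.1.1)‖ := by
        unfold vn
        rw [ev_lin, ev_lin, map_zero, map_one, zero_mul, one_mul, add_zero,
          add_comm (u (-m * a₀⁻¹) * _)]
      rw [e]
      exact max_le ((le_max_left _ _).trans (g3 q u _ (vn_nonneg _ _ _)))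
        (g1 q u _ _ _ (g2 q u _ _ _ (le_max_right _ _) (le_max_left _ _)))
    · intro u hu
      obtain ⟨S', hS', hS''⟩ := htr u hu
      refine ⟨S', hS', fun j hj => ?_⟩
      obtain ⟨i, hi, ⟨-, hij⟩, hv⟩ := hS'' j hj
      have e : vn E ((1 : F) • x + (0 : F) • y) ((-m * a₀⁻¹) • x + a₀⁻¹ • y) j.1 =
          max ‖j.1.2 (x j.1.1)‖
            ‖u a₀⁻¹ * j.1.2 (y j.1.1) + u (-m * a₀⁻¹) * j.1.2 (x j.1.1)‖ := by
        unfold vn
        rw [ev_lin, ev_lin, map_zero, map_one, zero_mul, one_mul, add_zero,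
          add_comm (u (-m * a₀⁻¹) * _)]
      rw [e]
      refine max_le (le_max_left _ _) ?_
      refine (g1 p u _ _ (‖u₀ a₀‖ * vn E x y i.1) (by rw [hij]; exact hm i hi)).trans
        (le_of_eq ?_)
      rw [hAu u hu, ← hv]
      have := (hA p u₀).ne'
      field_simp

theorem le_loc {K : Type} [NormedField K] [CharZero K] (u : F →+* K) (x y : ∀ k, E k)
    (π : Equiv.Perm (EmbU F E u)) : ∏ i, ‖pl E x y i.1 (π i).1‖ ≤ loc F E u x y := by
  unfold loc
  have hb : BddAbove (Set.range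
      (fun π : Equiv.Perm (EmbU F E u) => ∏ i, ‖pl E x y i.1 (π i).1‖)) :=
    (Set.finite_range _).bddAbove
  exact le_ciSup hb π

theorem loc_good (hC : S_CARD) (hH : S_HALL) (hn : 3 ≤ deg F E) (x y : ∀ k, E k)
    (q : Nat.Primes) (h : Good F E x y q) (u : F →+* Kp q) : loc F E u x y = 1 := by
  have hcard : Fintype.card (EmbU F E u) = deg F E := hC F ι E (Kp q) u
  apply le_antisymm
  · refine ciSup_le fun π => ?_
    refine Finset.prod_le_one (fun i _ => norm_nonneg _) fun i _ => ?_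
    by_cases hi : i = π i
    · rw [← hi, pl_self, norm_zero]; exact zero_le_one
    · exact (h.1 u i (π i) hi).le
  · obtain ⟨π, hπ⟩ := hH (EmbU F E u) Eq eq_equivalence (fun i => by
      rw [hcard]
      have : Nat.card {j // i = j} = 1 := by
        rw [Nat.card_eq_fintype_card, Fintype.card_subtype_eq']
      omega)
    refine le_trans (le_of_eq ?_) (le_loc F E u x y π)
    exact (Finset.prod_eq_one fun i _ => h.1 u i (π i) (hπ i)).symm

/-- The local inequality for pairs without large classes. -/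
theorem local_ineq (hC : S_CARD) (hT : S_TRANS) (x y : ∀ k, E k) (hD : Distinct F E x y)
    (hn : 3 ≤ deg F E) {q : Nat.Primes} (u : F →+* Kp q) (κ : ℝ) (hκ : 0 ≤ κ)
    (π : Equiv.Perm (EmbU F E u))
    (h : ∀ i : EmbU F E u, κ * (vn E x y i.1 * vn E x y (π i).1) ≤ ‖pl E x y i.1 (π i).1‖) :
    κ ^ deg F E * (∏ i : EmbU F E u, vn E x y i.1) ^ 2 ≤ loc F E u x y := by
  have hcard : Fintype.card (EmbU F E u) = deg F E := hC F ι E (Kp q) u
  refine le_trans ?_ (le_loc F E u x y π)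
  have hv := vn_pos F E hC hT x y hD hn q
  calc κ ^ deg F E * (∏ i : EmbU F E u, vn E x y i.1) ^ 2
      = ∏ i : EmbU F E u, κ * (vn E x y i.1 * vn E x y (π i).1) := by
        rw [Finset.prod_mul_distrib, Finset.prod_mul_distrib, Finset.prod_const, Finset.card_univ,
          hcard, Equiv.prod_comp π (fun i => vn E x y i.1), sq]
    _ ≤ _ := Finset.prod_le_prod
        (fun i _ => mul_nonneg hκ (mul_nonneg (hv i.1).le (hv _).le)) fun i _ => h i

theorem prod_emb (q : Nat.Primes) (f : Emb E (Kp q) → ℝ) :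
    ∏ i : Emb E (Kp q), f i = ∏ u : F →+* Kp q, ∏ i : EmbU F E u, f i.1 := by
  rw [← Finset.prod_fiberwise Finset.univ
    (fun i : Emb E (Kp q) => i.2.comp (algebraMap F (E i.1))) f]
  refine Finset.prod_congr rfl fun u _ => ?_
  exact Finset.prod_subtype _ (by simp) f

end main

theorem t_MIN (hH : S_HALL) (hF : S_FIN) (hU : S_UNR) (hC : S_CARD) (hT : S_TRANS)
    (hJ : S_CONJ) (hE : S_ELT) (hR : S_RAT) : S_MIN := by
  intro F _ _ ι _ E _ _ _ hodd hn
  obtain ⟨N, hN, hU⟩ := hU ι E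
  obtain ⟨N0, η, hη, hE⟩ := hE F (deg F E) (by omega)
  set M : ℕ := N * (deg F E).factorial with hM
  have hM0 : M ≠ 0 := mul_ne_zero hN (Nat.factorial_ne_zero _)
  set bad : Nat.Primes → Prop := fun q => (q : ℕ) ∣ M ∨ (q : ℕ) < N0 with hbad
  have hP0 : {q : Nat.Primes | bad q}.Finite := by
    refine Set.Finite.of_finite_image (f := fun q : Nat.Primes => (q : ℕ)) ?_
      (fun a _ b _ h => Subtype.ext h)
    refine ((M.divisors.finite_toSet).union (Set.finite_lt_nat N0)).subset ?_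
    rintro _ ⟨q, hq, rfl⟩
    rcases hq with hq | hq
    · exact Or.inl (Finset.mem_coe.mpr (Nat.mem_divisors.mpr ⟨hq, hM0⟩))
    · exact Or.inr hq
  set κ₀ : Nat.Primes → ℝ := fun q => ‖(((deg F E).factorial : ℕ) : Kp q)‖ * η q with hκ₀
  have hfac : ∀ q : Nat.Primes, 0 < ‖(((deg F E).factorial : ℕ) : Kp q)‖ := by
    intro q
    refine norm_pos_iff.mpr ?_
    exact_mod_cast Nat.factorial_ne_zero _
  have hκ₀pos : ∀ q, 0 < κ₀ q := fun q => mul_pos (hfac q) (hη q)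
  set cu : Nat.Primes → ℝ := fun q => if bad q then κ₀ q ^ deg F E else 1 with hcu
  have hcupos : ∀ q, 0 < cu q := by
    intro q
    simp only [hcu]
    split_ifs
    · exact pow_pos (hκ₀pos q) _
    · exact one_pos
  set c : Nat.Primes → ℝ := fun q => ∏ _u : F →+* Kp q, cu q with hc
  have hcpos : ∀ q, 0 < c q := fun q => Finset.prod_pos fun _ _ => hcupos q
  refine ⟨∏ q ∈ hP0.toFinset, c q, Finset.prod_pos fun q _ => hcpos q, fun x y hD => ?_⟩
  -- minimisation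
  set V : Set ℝ := {v | ∃ a b c d : F, a * d - b * c ≠ 0 ∧
    v = DD F E (a • x + b • y) (c • x + d • y)} with hV
  have hVne : V.Nonempty := ⟨_, 1, 0, 0, 1, by simp, rfl⟩
  have hV1 : ∀ v ∈ V, 1 ≤ v := by
    rintro v ⟨a, b, c, d, h, rfl⟩
    exact one_le_DD F E hC hF hT _ _ (distinct_lin F E x y hD a b c d h) hn
  have hVbdd : BddBelow V := ⟨1, fun v hv => hV1 v hv⟩
  have hI : 1 ≤ sInf V := le_csInf hVne hV1
  obtain ⟨v, hv, hvlt⟩ := exists_lt_of_csInf_lt hVne (show sInf V < 3 / 2 * sInf V by linarith)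
  obtain ⟨a, b, cc, d, hdet, rfl⟩ := hv
  refine ⟨a, b, cc, d, hdet, ?_⟩
  set X := a • x + b • y with hX
  set Y := cc • x + d • y with hY
  have hD' : Distinct F E X Y := distinct_lin F E x y hD a b cc d hdet
  -- the local inequality
  have hloc : ∀ (q : Nat.Primes) (u : F →+* Kp q),
      cu q * (∏ i : EmbU F E u, vn E X Y i.1) ^ 2 ≤ loc F E u X Y := by
    intro q u
    have hcard : Fintype.card (EmbU F E u) = deg F E := hC F ι E (Kp q) u
    have hvpos := vn_pos F E hC hT X Y hD' hn q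
    obtain ⟨a₀, hai, ha0, ha1, haη, hap, haU⟩ := hE q u
    set κ : ℝ := ‖(((deg F E).factorial : ℕ) : Kp q)‖ * ‖u a₀‖ with hκ
    have hκpos : 0 < κ := mul_pos (hfac q) (norm_pos_iff.mpr ((map_ne_zero u).mpr ha0))
    have hequiv : Equivalence fun i j : EmbU F E u =>
        ‖pl E X Y i.1 j.1‖ ≤ κ * (vn E X Y i.1 * vn E X Y j.1) :=
      (rel_equiv X Y hκpos.le hvpos).comap (Subtype.val)
    have hnolarge : ∀ (S : Finset (EmbU F E u)), deg F E < 2 * S.card →
        (∀ i ∈ S, ∀ j, j ∈ S ↔ ‖pl E X Y i.1 j.1‖ ≤ κ * (vn E X Y i.1 * vn E X Y j.1)) →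
        False := by
      intro S hS hcl
      obtain ⟨α, β, γ, δ, hdet', hle⟩ := improve F E hC hF hT hJ hR X Y hD' hn q u a₀ hai ha0 ha1
        haU S hS hcl
      have hmem : DD F E (α • X + β • Y) (γ • X + δ • Y) ∈ V := by
        refine ⟨α * a + β * cc, α * b + β * d, γ * a + δ * cc, γ * b + δ * d, ?_, ?_⟩
        · have e : (α * a + β * cc) * (γ * b + δ * d) - (α * b + β * d) * (γ * a + δ * cc) =
              (α * δ - β * γ) * (a * d - b * cc) := by ring
          rw [e]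
          exact mul_ne_zero hdet' hdet
        · have e1 : α • X + β • Y = (α * a + β * cc) • x + (α * b + β * d) • y := by
            rw [hX, hY]; module
          have e2 : γ • X + δ • Y = (γ * a + δ * cc) • x + (γ * b + δ * d) • y := by
            rw [hX, hY]; module
          rw [e1, e2]
      have := csInf_le hVbdd hmem
      linarith
    obtain ⟨π, hπ⟩ := hH (EmbU F E u) _ hequiv (fun i => by
      by_contra hcon
      push Not at hcon
      rw [hcard] at hcon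
      refine hnolarge (Finset.univ.filter fun j =>
        ‖pl E X Y i.1 j.1‖ ≤ κ * (vn E X Y i.1 * vn E X Y j.1)) ?_ ?_
      · rwa [Nat.card_eq_fintype_card, Fintype.card_subtype] at hcon
      · intro i' hi' j
        rw [Finset.mem_filter] at hi' ⊢
        constructor
        · rintro ⟨-, h⟩
          exact hequiv.trans (hequiv.symm hi'.2) h
        · intro h
          exact ⟨Finset.mem_univ _, hequiv.trans hi'.2 h⟩)
    simp only [not_le] at hπ
    simp only [hcu]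
    split_ifs with hq
    · refine local_ineq F E hC hT X Y hD' hn u (κ₀ q) (hκ₀pos q).le π fun i => ?_
      refine le_trans (mul_le_mul_of_nonneg_right ?_
        (mul_nonneg (hvpos _).le (hvpos _).le)) (hπ i).le
      exact mul_le_mul_of_nonneg_left haη (hfac q).le
    · have hq' : ¬ (q : ℕ) ∣ M ∧ ¬ (q : ℕ) < N0 := by
        simp only [hbad] at hq
        push Not at hq ⊢
        exact hq
      have hq1 : ¬ (q : ℕ) ∣ N := fun h => hq'.1 (h.mul_right _)
      have hq2 : ¬ (q : ℕ) ∣ (deg F E).factorial := fun h => hq'.1 (h.mul_left _)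
      have hκq : ((q : ℕ) : ℝ)⁻¹ ≤ κ := by
        rw [hκ, norm_nat_eq q hq2, one_mul, ← one_div]
        exact hap (not_lt.mp hq'.2)
      obtain ⟨hU1, hU2⟩ := hU q hq1 X Y
      have := local_ineq F E hC hT X Y hD' hn u 1 zero_le_one π (fun i => by
        rw [one_mul]
        have h1 : ((q : ℕ) : ℝ)⁻¹ * (vn E X Y i.1 * vn E X Y (π i).1) <
            ‖pl E X Y i.1 (π i).1‖ :=
          lt_of_le_of_lt (mul_le_mul_of_nonneg_right hκq
            (mul_nonneg (hvpos _).le (hvpos _).le)) (hπ i)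
        obtain ⟨v, hv⟩ := (hU1 i.1).resolve_left (hvpos i.1).ne'
        obtain ⟨w, hw⟩ := (hU1 (π i).1).resolve_left (hvpos _).ne'
        have hq0 : (0 : ℝ) < (q : ℕ) := by exact_mod_cast q.2.pos
        have hq1 : (1 : ℝ) < (q : ℕ) := by exact_mod_cast q.2.one_lt
        have hne : pl E X Y i.1 (π i).1 ≠ 0 := by
          intro h0
          rw [h0, norm_zero] at h1
          have : 0 < ((q : ℕ) : ℝ)⁻¹ * (vn E X Y i.1 * vn E X Y (π i).1) :=
            mul_pos (inv_pos.mpr hq0) (mul_pos (hvpos i.1) (hvpos _))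
          linarith
        obtain ⟨z, hz⟩ := (hU2 i.1 (π i).1).resolve_left hne
        rw [hv, hw, hz, ← zpow_neg_one, ← zpow_add₀ hq0.ne', ← zpow_add₀ hq0.ne'] at h1
        rw [hv, hw, hz, ← zpow_add₀ hq0.ne']
        have h2 := (zpow_lt_zpow_iff_right₀ hq1).mp h1
        exact zpow_le_zpow_right₀ hq1.le (by omega))
      rwa [one_pow] at this
  -- the products
  set T : Finset Nat.Primes := hP0.toFinset ∪ (good_finite F E hC hF hT X Y hD' hn).toFinset
    with hTd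
  have hT1 : ∀ q, ¬ Good F E X Y q → q ∈ T := by
    intro q h
    simp only [hTd, Finset.mem_union, Set.Finite.mem_toFinset]
    exact Or.inr h
  have e1 : ∏ᶠ q : Nat.Primes, ∏ i : Emb E (Kp q), vn E X Y i =
      ∏ q ∈ T, ∏ i : Emb E (Kp q), vn E X Y i := by
    refine finprod_eq_prod_of_mulSupport_subset _ fun q hq => ?_
    by_contra hcon
    have hg : Good F E X Y q := by_contra fun hg => hcon (hT1 q hg)
    exact hq (Finset.prod_eq_one fun i _ => hg.2 i)
  have e2 : ∏ᶠ q : Nat.Primes, ∏ u : F →+* Kp q, loc F E u X Y =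
      ∏ q ∈ T, ∏ u : F →+* Kp q, loc F E u X Y := by
    refine finprod_eq_prod_of_mulSupport_subset _ fun q hq => ?_
    by_contra hcon
    have hg : Good F E X Y q := by_contra fun hg => hcon (hT1 q hg)
    exact hq (Finset.prod_eq_one fun u _ => loc_good F E hC hH hn X Y q hg u)
  have e3 : ∏ q ∈ hP0.toFinset, c q = ∏ q ∈ T, c q := by
    refine Finset.prod_subset Finset.subset_union_left fun q _ hq => ?_
    refine Finset.prod_eq_one fun u _ => ?_
    simp only [hcu]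
    rw [if_neg]
    intro h
    exact hq ((Set.Finite.mem_toFinset _).mpr h)
  rw [e1, e2, e3, ← Finset.prod_pow, ← Finset.prod_mul_distrib]
  refine Finset.prod_le_prod (fun q _ => mul_nonneg (hcpos q).le (sq_nonneg _)) fun q _ => ?_
  rw [prod_emb F E q, ← Finset.prod_pow, ← Finset.prod_mul_distrib]
  exact Finset.prod_le_prod (fun u _ => mul_nonneg (hcupos q).le (sq_nonneg _)) fun u _ =>
    hloc q u

end Pool.Agent.K1H30.DF
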